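import Pool.Agent.Lib.MP_c7af3c_ag.EDGE.Iface

/-!
# MP_c7af3c_ag, project EDGE: module SBL, the local size of `x ∧ s` (helper71)
-/

set_option autoImplicit false

namespace Pool.Agent.Edge.H71

open MvPolynomial WithZero Pool.Agent.Gen Pool.Agent.Sharp Pool.Agent.Lines.H75 Pool.Agent.Edge

section

variable {L : Type} [Field L] {n : ℕ}

theorem plu_mem (x u : Fin (n + 1) → L) (h : u ∈ Submodule.span L {x}) (q r : Fin (n + 1)) :
    plu x u q r = 0 := by
  obtain ⟨c, rfl⟩ := Submodule.mem_span_singleton.1 h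
  unfold plu
  simp only [Pi.smul_apply, smul_eq_mul]
  ring

theorem plu_eq (x u w : Fin (n + 1) → L) (b : L) (h : u - b • w ∈ Submodule.span L {x})
    (q r : Fin (n + 1)) : plu x u q r = b * plu x w q r := by
  have h1 := plu_mem x _ h q r
  unfold plu at h1 ⊢
  simp only [Pi.sub_apply, Pi.smul_apply, smul_eq_mul] at h1
  linear_combination h1

end

theorem sbl : SblStatement := by
  intro L _ _ n c d D x j0 hj0 t P hP G hG s hs v M a g hM ha hdel hPa hGg q r
  classical
  obtain ⟨i, -, hi⟩ := Finset.exists_max_image (Finset.univ : Finset (Fin 3))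
    (fun i => v (x (t i))) ⟨0, Finset.mem_univ _⟩
  obtain ⟨iv, -, hiv'⟩ := Finset.exists_max_image (Finset.univ : Finset (Fin (n + 1)))
    (fun i => v (x i)) ⟨0, Finset.mem_univ _⟩
  have hle : ∀ j, v (x j) ≤ v (x iv) := fun j => hiv' j (Finset.mem_univ j)
  have hivne : x iv ≠ 0 := by
    intro h
    have h1 := hle j0
    rw [hj0, h, map_one, map_zero] at h1
    exact absurd h1 (not_le.2 zero_lt_one)
  have hX : v (x iv) ≤ a * v (x (t i)) := by
    rw [hP iv]
    refine v.map_sum_le fun j _ => ?_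
    rw [map_mul]
    exact mul_le_mul' (hPa j iv) (hi j (Finset.mem_univ j))
  have hXne : v (x (t i)) ≠ 0 := by
    intro h
    rw [h, mul_zero] at hX
    exact ((map_ne_zero v).2 hivne) (le_antisymm hX zero_le)
  set E : Fin c → MvPolynomial (Fin (n + 1)) L := mulT G (X (t i) * X (t i)) with hE
  have hEdeg : ∀ m, ∀ I ∈ (E m).support, I.degree = d m := by
    intro m I hI
    rw [mem_support_iff] at hI
    have h0 : E m = G m * (X (t i) * X (t i)) := rfl
    rw [h0, coeff_mul] at hI
    obtain ⟨p, hp, hp'⟩ := Finset.exists_ne_zero_of_sum_ne_zero hI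
    have h1 := hG m p.1 (mem_support_iff.2 (left_ne_zero_of_mul hp'))
    have hhom : (X (t i) * X (t i) : MvPolynomial (Fin (n + 1)) L).IsHomogeneous (1 + 1) :=
      (isHomogeneous_X L _).mul (isHomogeneous_X L _)
    have h2 := hhom (right_ne_zero_of_mul hp')
    have h3 : p.2.degree = 2 := by
      rw [Finsupp.degree_eq_weight_one]
      exact h2
    rw [Finset.HasAntidiagonal.mem_antidiagonal] at hp
    rw [← hp, map_add, h3, h1]
  have hECB : ∀ m, CB v (E m) g := by
    intro m
    have h := (hGg m).mul v ((CB_X v (t i)).mul v (CB_X v (t i)))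
    rwa [mul_one, mul_one] at h
  have h1 : plu x (VT D x E) q r = x (t i) * x (t i) * plu x s q r :=
    plu_eq x _ s _ (hs i i) q r
  have h2 : plu x (VT D x E) q r = x iv * plu x (VT D ((x iv)⁻¹ • x) E) q r :=
    plu_eq x _ _ _ (VT_scale D x hivne E) q r
  have h3 : plu x (VT D ((x iv)⁻¹ • x) E) q r =
      x iv * plu ((x iv)⁻¹ • x) (VT D ((x iv)⁻¹ • x) E) q r := by
    unfold plu
    simp only [Pi.smul_apply, smul_eq_mul]
    field_simp
  have hb := VT_bound D ((x iv)⁻¹ • x) v M g hdel (v_smul_le x hivne hle) E hEdeg hECB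
  have h4 : v (plu ((x iv)⁻¹ • x) (VT D ((x iv)⁻¹ • x) E) q r) ≤ g * M := by
    unfold plu
    refine (v.map_sub _ _).trans (max_le ?_ ?_)
    · rw [map_mul]
      calc _ ≤ 1 * (g * M) := mul_le_mul' (v_smul_le x hivne hle q) (hb r)
        _ = g * M := one_mul _
    · rw [map_mul]
      calc _ ≤ 1 * (g * M) := mul_le_mul' (v_smul_le x hivne hle r) (hb q)
        _ = g * M := one_mul _
  have h5 : v (x (t i)) * v (x (t i)) * v (plu x s q r) ≤
      v (x (t i)) * v (x (t i)) * (M * g * a ^ 2) := by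
    have e1 : v (x (t i)) * v (x (t i)) * v (plu x s q r) = v (plu x (VT D x E) q r) := by
      rw [h1, map_mul, map_mul]
    rw [e1, h2, h3, map_mul, map_mul]
    calc v (x iv) * (v (x iv) * v (plu ((x iv)⁻¹ • x) (VT D ((x iv)⁻¹ • x) E) q r))
        ≤ (a * v (x (t i))) * ((a * v (x (t i))) * (g * M)) :=
          mul_le_mul' hX (mul_le_mul' hX h4)
      _ = v (x (t i)) * v (x (t i)) * (M * g * a ^ 2) := by
          rw [pow_two]
          ac_rfl
  have hpos : 0 < v (x (t i)) * v (x (t i)) := by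
    rw [zero_lt_iff]
    exact mul_ne_zero hXne hXne
  exact le_of_mul_le_mul_left h5 hpos

end Pool.Agent.Edge.H71
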